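import Pool.Agent.Helper72.TF.Main

/-!
On every connected translation surface the directions whose linear flow is isomorphic to the flow
in a given direction form a Lebesgue null set (Q1 and Q2, negative answer).

The surface is given by the usual polygon model: disjoint triangles in the plane whose edges are
glued in pairs by translations.
-/

open MeasureTheory Pool.Agent.Helper87.LS

namespace Pool.Agent.Results.MP_e98778_an.AllSurfaces

/-- The surface is connected: a nonempty set of triangles which contains the neighbours of each of
its triangles is the set of all triangles. -/
def IsConnected (S : Surf) : Prop :=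
  ∀ s : Set (Fin S.n), s.Nonempty → (∀ i ∈ s, ∀ k : Fin 3, (S.glue (i, k)).1 ∈ s) → s = Set.univ

theorem result (S : Surf) (hS : IsConnected S) (θ₀ : ℝ) :
    volume {θ : ℝ | S.FlowIso θ θ₀} = 0 :=
  Pool.Agent.Helper72.TF.main S (Pool.Agent.Helper72.TF.connected_of S hS) θ₀

end Pool.Agent.Results.MP_e98778_an.AllSurfaces
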